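import Pool.Agent.Y749.Rig.FFc

/-! # Recurrence for the means of the form factor -/

set_option autoImplicit false

open MeasureTheory Set Filter Topology
open scoped NNReal ENNReal

namespace Pool.Agent.Q34.KR

open Pool.Agent.Y749.Rig

lemma odd_zero {g : ℝ → ℝ} (h : ∀ x, g (-x) = - g x) : ∫ x, g x = 0 := by
  have h1 : ∫ x, g (-x) = ∫ x, g x := integral_neg_eq_self g volume
  simp_rw [h, integral_neg] at h1
  linarith

lemma int_mul_tr {δ : ℝ} (hδ : 0 < δ) {g : ℝ → ℝ} (hg : Continuous g) :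
    Integrable fun α => tr δ α * g α := by
  refine Continuous.integrable_of_hasCompactSupport ((tr_cont δ).mul hg) ?_
  exact (adm_tr hδ).hcs.mul_right

lemma fl_shift {δ : ℝ} (hδ : 0 < δ) (b x : ℝ) :
    fl (fun α => tr δ (α - b)) x = Real.cos (2 * Real.pi * b * x) * fl (tr δ) x := by
  unfold fl
  have h1 : ∫ α, tr δ (α - b) * Real.cos (2 * Real.pi * α * x) =
      ∫ α, tr δ α * Real.cos (2 * Real.pi * (α + b) * x) := by
    have := integral_sub_right_eq_self (μ := volume)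
      (fun α => tr δ α * Real.cos (2 * Real.pi * (α + b) * x)) b
    rw [← this]
    refine integral_congr_ae (ae_of_all _ fun α => ?_)
    simp only [sub_add_cancel]
  have i1 : Integrable fun α => tr δ α * Real.cos (2 * Real.pi * α * x) :=
    int_mul_tr hδ (by fun_prop)
  have i2 : Integrable fun α => tr δ α * Real.sin (2 * Real.pi * α * x) :=
    int_mul_tr hδ (by fun_prop)
  have h2 : ∫ α, tr δ α * Real.sin (2 * Real.pi * α * x) = 0 := by
    refine odd_zero fun α => ?_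
    rw [tr_even, show 2 * Real.pi * -α * x = -(2 * Real.pi * α * x) by ring, Real.sin_neg]
    ring
  have h3 : ∀ α : ℝ, tr δ α * Real.cos (2 * Real.pi * (α + b) * x) =
      Real.cos (2 * Real.pi * b * x) * (tr δ α * Real.cos (2 * Real.pi * α * x)) -
        Real.sin (2 * Real.pi * b * x) * (tr δ α * Real.sin (2 * Real.pi * α * x)) := by
    intro α
    rw [show 2 * Real.pi * (α + b) * x = 2 * Real.pi * α * x + 2 * Real.pi * b * x by ring,
      Real.cos_add]
    ring
  rw [h1]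
  simp_rw [h3]
  rw [integral_sub (i1.const_mul _) (i2.const_mul _), integral_const_mul, integral_const_mul, h2]
  ring

/-- the mean of the form factor around `b` with the tent of half width `δ` -/
noncomputable def G (δ T b : ℝ) : ℝ := ∫ α, tr δ α * Fr T (b + α)

/-- the kernel -/
noncomputable def KK (δ T x : ℝ) : ℝ := fl (tr δ) x * ww (2 * Real.pi * x / Real.log T)

lemma KK_cont {δ : ℝ} (hδ : 0 < δ) (T : ℝ) : Continuous (KK δ T) := by
  have h1 := fl_cont (tr_int hδ)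
  have h2 := ww_cont
  unfold KK
  fun_prop

lemma KK_nonneg {δ : ℝ} (hδ : 0 < δ) (T x : ℝ) : 0 ≤ KK δ T x :=
  mul_nonneg (fl_tr_nonneg hδ x) (ww_pos _).le

lemma KK_zero {δ : ℝ} (hδ : 0 < δ) (T : ℝ) : KK δ T 0 = 1 := by
  unfold KK
  rw [fl_tr_zero hδ, mul_zero, zero_div, ww_zero, mul_one]

lemma KK_int {δ : ℝ} (hδ : 0 < δ) (T : ℝ) {g : ℝ → ℝ} (hg : Continuous g) {C : ℝ}
    (hC : ∀ x, |g x| ≤ C) : Integrable (fun x => g x * KK δ T x) (Mp T) := by
  have := Mp_fin T
  obtain ⟨B, hB⟩ := fl_bound (adm_tr hδ)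
  have hB0 : 0 ≤ B := by
    have := (abs_nonneg _).trans (hB 0)
    simpa using this
  have hC0 : 0 ≤ C := (abs_nonneg _).trans (hC 0)
  refine Integrable.of_bound (hg.mul (KK_cont hδ T)).aestronglyMeasurable (C * B)
    (ae_of_all _ fun x => ?_)
  rw [norm_mul, Real.norm_eq_abs, Real.norm_eq_abs, abs_of_nonneg (KK_nonneg hδ T x)]
  refine mul_le_mul (hC x) ?_ (KK_nonneg hδ T x) hC0
  unfold KK
  have h1 : fl (tr δ) x ≤ B := by
    refine (le_abs_self _).trans ((hB x).trans ?_)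
    apply div_le_self hB0
    nlinarith [sq_nonneg x]
  calc fl (tr δ) x * ww (2 * Real.pi * x / Real.log T) ≤ fl (tr δ) x * 1 :=
        mul_le_mul_of_nonneg_left (ww_le _) (fl_tr_nonneg hδ x)
    _ ≤ B := by rw [mul_one]; exact h1

lemma G_eq {δ : ℝ} (hδ : 0 < δ) (T b : ℝ) :
    G δ T b = ∫ x, Real.cos (2 * Real.pi * b * x) * KK δ T x ∂(Mp T) := by
  have h1 : G δ T b = ∫ α, tr δ (α - b) * Fr T α := by
    unfold G
    have := integral_sub_right_eq_self (μ := volume) (fun α => tr δ α * Fr T (b + α)) b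
    rw [← this]
    refine integral_congr_ae (ae_of_all _ fun α => ?_)
    simp only [add_sub_cancel]
  rw [h1, Fr_pair (ψ := fun α => tr δ (α - b)) ((tr_int hδ).comp_sub_right b)]
  refine integral_congr_ae (ae_of_all _ fun x => ?_)
  simp only
  rw [fl_shift hδ]
  unfold KK
  ring

lemma G_even {δ : ℝ} (hδ : 0 < δ) (T b : ℝ) : G δ T (-b) = G δ T b := by
  rw [G_eq hδ, G_eq hδ]
  refine integral_congr_ae (ae_of_all _ fun x => ?_)
  simp only
  rw [show 2 * Real.pi * -b * x = -(2 * Real.pi * b * x) by ring, Real.cos_neg]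

lemma low {δ : ℝ} (hδ : 0 < δ) (T : ℝ) {m : ℕ} (b : Fin m → ℝ) :
    (m : ℝ) ^ 2 * (Mp T).real {0} ≤ ∑ i, ∑ j, G δ T (b j - b i) := by
  have hfin := Mp_fin T
  set P : ℝ → ℝ := fun x => (∑ i, Real.cos (2 * Real.pi * b i * x)) ^ 2 +
    (∑ i, Real.sin (2 * Real.pi * b i * x)) ^ 2 with hP
  have hPx : ∀ x, P x = ∑ i, ∑ j, Real.cos (2 * Real.pi * (b j - b i) * x) := by
    intro x
    simp only [hP]
    rw [sq, sq, Finset.sum_mul_sum, Finset.sum_mul_sum, ← Finset.sum_add_distrib]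
    refine Finset.sum_congr rfl fun i _ => ?_
    rw [← Finset.sum_add_distrib]
    refine Finset.sum_congr rfl fun j _ => ?_
    rw [show 2 * Real.pi * (b j - b i) * x = 2 * Real.pi * b j * x - 2 * Real.pi * b i * x by ring,
      Real.cos_sub]
    ring
  have hPc : Continuous P := by
    simp only [hP]
    fun_prop
  have h1 : ∑ i, ∑ j, G δ T (b j - b i) = ∫ x, P x * KK δ T x ∂(Mp T) := by
    have e : ∀ x, P x * KK δ T x =
        ∑ i, ∑ j, Real.cos (2 * Real.pi * (b j - b i) * x) * KK δ T x := by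
      intro x
      rw [hPx, Finset.sum_mul]
      exact Finset.sum_congr rfl fun i _ => Finset.sum_mul _ _ _
    simp_rw [e]
    have hi : ∀ i j : Fin m, Integrable
        (fun x => Real.cos (2 * Real.pi * (b j - b i) * x) * KK δ T x) (Mp T) := fun i j =>
      KK_int hδ T (by fun_prop) (C := 1) fun x => Real.abs_cos_le_one _
    rw [integral_finsetSum _ fun i _ => integrable_finsetSum _ fun j _ => hi i j]
    refine Finset.sum_congr rfl fun i _ => ?_
    rw [integral_finsetSum _ fun j _ => hi i j]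
    refine Finset.sum_congr rfl fun j _ => ?_
    rw [G_eq hδ]
  have hP0 : P 0 = (m : ℝ) ^ 2 := by
    simp [hP]
  have hPnn : ∀ x, 0 ≤ P x := fun x => by simp only [hP]; positivity
  have hPb : ∀ x, |P x| ≤ (m : ℝ) * m := by
    intro x
    rw [hPx]
    refine (Finset.abs_sum_le_sum_abs _ _).trans ?_
    calc ∑ i : Fin m, |∑ j, Real.cos (2 * Real.pi * (b j - b i) * x)| ≤ ∑ i : Fin m, (m : ℝ) := by
          refine Finset.sum_le_sum fun i _ => (Finset.abs_sum_le_sum_abs _ _).trans ?_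
          calc ∑ j : Fin m, |Real.cos (2 * Real.pi * (b j - b i) * x)| ≤ ∑ j : Fin m, (1 : ℝ) :=
                Finset.sum_le_sum fun j _ => Real.abs_cos_le_one _
            _ = m := by simp
      _ = (m : ℝ) * m := by simp
  rw [h1]
  have e : (m : ℝ) ^ 2 * (Mp T).real {0} = ∫ x in ({0} : Set ℝ), P x * KK δ T x ∂(Mp T) := by
    rw [integral_singleton, hP0, KK_zero hδ]
    simp only [smul_eq_mul]
    ring
  rw [e]
  exact setIntegral_le_integral (KK_int hδ T hPc hPb)
    (ae_of_all _ fun x => mul_nonneg (hPnn x) (KK_nonneg hδ T x))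

lemma abs_tr {δ : ℝ} (hδ : 0 < δ) : ∫ α, |α| * tr δ α = δ / 3 := by
  rw [int_supp hδ (fun x hx => by rw [tr_supp hδ x hx, mul_zero])]
  have hc : Continuous fun α => |α| * tr δ α := continuous_abs.mul (tr_cont δ)
  rw [← intervalIntegral.integral_add_adjacent_intervals (b := 0) (hc.intervalIntegrable _ _)
    (hc.intervalIntegrable _ _)]
  have h5 : ∫ α in (-δ)..0, |α| * tr δ α = ∫ α in (0 : ℝ)..δ, |α| * tr δ α := by
    have := intervalIntegral.integral_comp_neg (a := (0 : ℝ)) (b := δ) (fun α => |α| * tr δ α)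
    rw [neg_zero] at this
    rw [← this]
    refine intervalIntegral.integral_congr fun α _ => ?_
    show |(-α)| * tr δ (-α) = |α| * tr δ α
    rw [tr_even, abs_neg]
  have h6 : ∫ α in (0 : ℝ)..δ, |α| * tr δ α =
      ∫ α in (0 : ℝ)..δ, (1 / δ * α - 1 / δ ^ 2 * α ^ 2) := by
    refine intervalIntegral.integral_congr fun α hα => ?_
    rw [uIcc_of_le hδ.le] at hα
    show |α| * tr δ α = 1 / δ * α - 1 / δ ^ 2 * α ^ 2
    rw [tr_eq hδ hα.1 hα.2, abs_of_nonneg hα.1]
    field_simp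
  rw [h5, h6, intervalIntegral.integral_sub (by
      apply Continuous.intervalIntegrable; fun_prop) (by
      apply Continuous.intervalIntegrable; fun_prop), intervalIntegral.integral_const_mul,
    intervalIntegral.integral_const_mul, integral_id, integral_pow]
  norm_num
  field_simp
  ring

lemma cc_tr {δ : ℝ} (hδ : 0 < δ) : cc (tr δ) = 1 / δ + δ / 3 := by
  unfold cc
  rw [abs_tr hδ]
  unfold tr
  simp

lemma up (RH : RiemannHypothesis) {δ : ℝ} (hδ : 0 < δ) (hδ1 : δ < 1) {η : ℝ} (hη : 0 < η) :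
    ∀ᶠ T in atTop, G δ T 0 ≤ 1 / δ + δ / 3 + η := by
  have hlim := Fr_lim (tr_int hδ) (fl_qd (adm_tr hδ)) le_rfl (test_limRH RH (adm_tr hδ) hδ hδ1)
  rw [cc_tr hδ] at hlim
  filter_upwards [hlim.eventually (ge_mem_nhds (show 1 / δ + δ / 3 < 1 / δ + δ / 3 + η by
    linarith))] with T hT
  unfold G
  simpa only [zero_add] using hT

/-- **Recurrence**: the average over the pairs -/
theorem main (RH : RiemannHypothesis) {δ : ℝ} (hδ : 0 < δ) (hδ1 : δ < 1) {η : ℝ} (hη : 0 < η)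
    {m : ℕ} (hm : 2 ≤ m) : ∀ᶠ T in atTop, ∀ b : Fin m → ℝ,
      (1 - (1 / δ + δ / 3 - 1) / (m - 1) - η) * (m * (m - 1) / 2) ≤
        ∑ i, ∑ j ∈ Finset.Ioi i, G δ T (b j - b i) := by
  have hm2 : (2 : ℝ) ≤ m := by exact_mod_cast hm
  filter_upwards [up RH hδ hδ1 (show 0 < η / 3 by positivity),
    Mp_zero (show 0 < η / 3 by positivity)] with T h1 h2 b
  have h3 := low hδ T b
  have h4 := Finset.sum_sum_Ioi_add_eq_sum_sum_off_diag (fun i j : Fin m => G δ T (b j - b i))
  have h5 : ∀ i j : Fin m, G δ T (b i - b j) = G δ T (b j - b i) := by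
    intro i j
    rw [← G_even hδ, neg_sub]
  have h6 : ∑ i : Fin m, ∑ j ∈ Finset.Ioi i, (G δ T (b i - b j) + G δ T (b j - b i)) =
      2 * ∑ i : Fin m, ∑ j ∈ Finset.Ioi i, G δ T (b j - b i) := by
    rw [Finset.mul_sum]
    refine Finset.sum_congr rfl fun i _ => ?_
    rw [Finset.mul_sum]
    refine Finset.sum_congr rfl fun j _ => ?_
    rw [h5 i j]
    ring
  have h7 : ∑ i : Fin m, ∑ j ∈ ({i}ᶜ : Finset (Fin m)), G δ T (b i - b j) =
      ∑ i : Fin m, ∑ j, G δ T (b j - b i) - m * G δ T 0 := by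
    have : ∀ i : Fin m, ∑ j ∈ ({i}ᶜ : Finset (Fin m)), G δ T (b i - b j) =
        ∑ j, G δ T (b j - b i) - G δ T 0 := by
      intro i
      have h8 := Finset.sum_compl_add_sum ({i} : Finset (Fin m)) (fun j => G δ T (b i - b j))
      rw [Finset.sum_singleton, sub_self] at h8
      have h9 : ∑ j, G δ T (b i - b j) = ∑ j, G δ T (b j - b i) :=
        Finset.sum_congr rfl fun j _ => h5 i j
      rw [← h9]
      linarith
    simp_rw [this]
    rw [Finset.sum_sub_distrib]
    simp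
  rw [h6, h7] at h4
  have hM : (m : ℝ) ^ 2 * (1 - η / 3) ≤ (m : ℝ) ^ 2 * (Mp T).real {0} :=
    mul_le_mul_of_nonneg_left h2 (by positivity)
  have hG : (m : ℝ) * G δ T 0 ≤ m * (1 / δ + δ / 3 + η / 3) :=
    mul_le_mul_of_nonneg_left h1 (by positivity)
  have h10 : (1 - (1 / δ + δ / 3 - 1) / (m - 1) - η) * (m * (m - 1) / 2) =
      (m * (m - 1) - m * (1 / δ + δ / 3 - 1) - η * (m * (m - 1))) / 2 := by
    have : (m : ℝ) - 1 ≠ 0 := by linarith
    field_simp
  have h11 : 0 ≤ η * (m * (m - 2)) :=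
    mul_nonneg hη.le (mul_nonneg (by linarith) (by linarith))
  rw [h10]
  nlinarith

lemma pairs_card (m : ℕ) (hm : 1 ≤ m) : ∑ i : Fin m, ∑ _j ∈ Finset.Ioi i, (1 : ℝ) = m * (m - 1) / 2 := by
  have h := Finset.sum_sum_Ioi_add_eq_sum_sum_off_diag (fun _ _ : Fin m => (1 : ℝ))
  have h1 : ∑ i : Fin m, ∑ _j ∈ ({i}ᶜ : Finset (Fin m)), (1 : ℝ) = m * (m - 1) := by
    simp only [Finset.sum_const, Finset.card_compl, Finset.card_singleton, Fintype.card_fin,
      nsmul_eq_mul, mul_one, Finset.card_univ]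
    rw [Nat.cast_sub hm]
    simp
  rw [h1] at h
  have h2 : ∑ i : Fin m, ∑ _j ∈ Finset.Ioi i, ((1 : ℝ) + 1) =
      2 * ∑ i : Fin m, ∑ _j ∈ Finset.Ioi i, (1 : ℝ) := by
    rw [Finset.mul_sum]
    refine Finset.sum_congr rfl fun i _ => ?_
    rw [Finset.mul_sum]
    exact Finset.sum_congr rfl fun j _ => by norm_num
  rw [h2] at h
  linarith

/-- one of the pairs -/
theorem main_one (RH : RiemannHypothesis) {δ : ℝ} (hδ : 0 < δ) (hδ1 : δ < 1) {η : ℝ} (hη : 0 < η)
    {m : ℕ} (hm : 2 ≤ m) : ∀ᶠ T in atTop, ∀ b : Fin m → ℝ, ∃ i j : Fin m, i < j ∧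
      1 - (1 / δ + δ / 3 - 1) / (m - 1) - η ≤ G δ T (b j - b i) := by
  have hm2 : (2 : ℝ) ≤ m := by exact_mod_cast hm
  filter_upwards [main RH hδ hδ1 (show 0 < η / 2 by positivity) hm] with T hT b
  by_contra hcon
  push Not at hcon
  have h1 : ∑ i, ∑ j ∈ Finset.Ioi i, G δ T (b j - b i) ≤
      (1 - (1 / δ + δ / 3 - 1) / (m - 1) - η) * (m * (m - 1) / 2) := by
    rw [← pairs_card m (by omega), Finset.mul_sum]
    refine Finset.sum_le_sum fun i _ => ?_
    rw [Finset.mul_sum]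
    refine Finset.sum_le_sum fun j hj => ?_
    rw [mul_one]
    exact (hcon i j (Finset.mem_Ioi.1 hj)).le
  have h2 := (hT b).trans h1
  have h3 : (0 : ℝ) < m * (m - 1) / 2 := by
    have : (0 : ℝ) < m - 1 := by linarith
    positivity
  have h4 := le_of_mul_le_mul_right h2 h3
  linarith

end Pool.Agent.Q34.KR
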