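import Pool.Agent.Q34.KR.Main
import Pool.Agent.H267R3.Folk

/-! # Simultaneous recurrence, by Ramsey's theorem -/

set_option autoImplicit false

open Filter Topology

namespace Pool.Agent.Q34.KR

/-- a recurrent property is recurrent for several functions at once -/
theorem ramsey_step (r n : ℕ) (hn : 2 ≤ n) : ∃ N : ℕ, ∀ P : Fin r → Fin N → Fin N → Prop,
    (∀ s : Fin r, ∀ e : Fin n ↪o Fin N, ∃ i j : Fin n, i < j ∧ P s (e i) (e j)) →
    ∃ i j : Fin N, i < j ∧ ∀ s, P s i j := by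
  classical
  rcases Nat.eq_zero_or_pos r with rfl | hr
  · exact ⟨2, fun P _ => ⟨0, 1, by decide, fun s => s.elim0⟩⟩
  obtain ⟨N, hN⟩ := H267R3.Folk.ramseyPairs (Fin r) n
  refine ⟨N, fun P hP => ?_⟩
  by_contra hcon
  have hcon' : ∀ i j : Fin N, i < j → ∃ s, ¬ P s i j := by
    intro i j hij
    by_contra h
    push Not at h
    exact hcon ⟨i, j, hij, h⟩
  set c : Fin N → Fin N → Fin r := fun i j =>
    if h : ∃ s, ¬ P s i j then h.choose else ⟨0, hr⟩ with hc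
  have hc' : ∀ i j, i < j → ¬ P (c i j) i j := by
    intro i j hij
    have h := hcon' i j hij
    have e : c i j = h.choose := by
      simp only [hc]
      rw [dif_pos h]
    rw [e]
    exact h.choose_spec
  obtain ⟨S, y, hS⟩ := hN c
  have h01 := hS ⟨0, by omega⟩ ⟨1, by omega⟩ (by simp [Fin.lt_def])
  obtain ⟨s0, hs0⟩ : ∃ s0, y = Sum.inl s0 := ⟨_, h01.symm⟩
  obtain ⟨i, j, hij, hp⟩ := hP s0 S
  have h1 := hS i j hij
  rw [hs0] at h1
  have h2 : c (S i) (S j) = s0 := Sum.inl_injective h1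
  have h3 := hc' (S i) (S j) (S.lt_iff_lt.2 hij)
  rw [h2] at h3
  exact h3 hp

theorem simul (RH : RiemannHypothesis) {δ : ℝ} (hδ : 0 < δ) (hδ1 : δ < 1) {ε : ℝ} (hε : 0 < ε)
    (r : ℕ) : ∃ m : ℕ, ∃ T₀ : ℝ, 10 ≤ T₀ ∧ ∀ t : Fin r → ℝ, (∀ s, T₀ ≤ t s) →
      ∀ b : Fin m → Fin r → ℝ, ∃ i j : Fin m, i < j ∧ ∀ s, 1 - ε ≤ G δ (t s) (b j s - b i s) := by
  have hc0 : 0 < 1 / δ + δ / 3 := by positivity
  obtain ⟨n, hn⟩ := exists_nat_gt (1 + 2 * (1 / δ + δ / 3) / ε)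
  have h1 : 0 < 2 * (1 / δ + δ / 3) / ε := by positivity
  have hn1 : (1 : ℝ) < n := by linarith
  have hn2 : 2 ≤ n := by exact_mod_cast hn1
  have hq : (1 / δ + δ / 3 - 1) / (n - 1) ≤ ε / 2 := by
    rw [div_le_iff₀ (by linarith)]
    have h2 : 2 * (1 / δ + δ / 3) / ε < n - 1 := by linarith
    rw [div_lt_iff₀ hε] at h2
    linarith
  obtain ⟨T₀, h⟩ := (main_one RH hδ hδ1 (show 0 < ε / 2 by positivity) hn2).exists_forall_of_atTop
  obtain ⟨N, hN⟩ := ramsey_step r n hn2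
  refine ⟨N, max T₀ 10, le_max_right _ _, fun t ht b => ?_⟩
  refine hN (fun s i j => 1 - ε ≤ G δ (t s) (b j s - b i s)) fun s e => ?_
  obtain ⟨i, j, hij, h3⟩ := h (t s) (le_trans (le_max_left _ _) (ht s)) (fun i => b (e i) s)
  exact ⟨i, j, hij, by linarith⟩

end Pool.Agent.Q34.KR
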